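import Pool.Agent.W325.KZ.Defs

/-!
KZ-CV: small critical values, all zones
-/

set_option autoImplicit false

open Finset MeasureTheory ProbabilityTheory Filter Topology

namespace Pool.Agent.W672.KZ

open Pool.Agent.W325.KZ

/-- small critical values in `[α, β]` -/
def At (D : ℕ) (α β u : ℝ) : Set (ℕ → ℝ) :=
  {a | ∃ x ∈ Set.Icc α β, deriv (pol a D) x = 0 ∧ |pol a D x| ≤ u}

theorem pol_neg (a : ℕ → ℝ) (D : ℕ) (x : ℝ) :
    pol (fun k => (-1) ^ k * a k) D x = pol a D (-x) := by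
  unfold pol
  refine sum_congr rfl fun k _ => ?_
  rw [neg_pow x k]
  ring

theorem deriv_pol_neg (a : ℕ → ℝ) (D : ℕ) (x : ℝ) :
    deriv (pol (fun k => (-1) ^ k * a k) D) x = -deriv (pol a D) (-x) := by
  have h : pol (fun k => (-1) ^ k * a k) D = fun y => pol a D (-y) := by
    funext y
    exact pol_neg a D y
  rw [h]
  exact deriv_comp_neg (pol a D) x

/-- both signs -/
theorem both (hG : S_SIGN) (D : ℕ) (s u : ℝ) :
    ga {a | Cr a D s u} ≤ 2 * ga (At D (1 - s) 1 u) := by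
  set A := At D (1 - s) 1 u with hA
  set M := toMeasurable ga A with hM
  have hAM : A ⊆ M := subset_toMeasurable ga A
  have hM1 : MeasurableSet M := measurableSet_toMeasurable ga A
  have hM2 : ga M = ga A := measure_toMeasurable A
  have hsub : {a | Cr a D s u} ⊆ M ∪ {a | (fun k => (-1) ^ k * a k) ∈ M} := by
    rintro a ⟨x, h1, h2, h3, h4⟩
    rcases le_or_gt 0 x with hx | hx
    · left
      rw [abs_of_nonneg hx] at h1 h2
      exact hAM ⟨x, ⟨h1, h2⟩, h3, h4⟩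
    · right
      rw [abs_of_neg hx] at h1 h2
      refine hAM ⟨-x, ⟨h1, h2⟩, ?_, ?_⟩
      · rw [deriv_pol_neg, neg_neg, h3, neg_zero]
      · rw [pol_neg, neg_neg]
        exact h4
  calc ga {a | Cr a D s u} ≤ ga (M ∪ {a | (fun k => (-1) ^ k * a k) ∈ M}) := measure_mono hsub
    _ ≤ ga M + ga {a | (fun k => (-1) ^ k * a k) ∈ M} := measure_union_le _ _
    _ = ga A + ga A := by rw [(hG M hM1).1, hM2]
    _ = 2 * ga A := (two_mul _).symm

/-- the zones -/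
theorem cover (D : ℕ) (u : ℝ) (j0 j1 : ℕ) (h : j0 ≤ j1) :
    At D (1 - (1 / 2) ^ j0) 1 u ⊆ (⋃ j ∈ Ico j0 j1, At D (1 - (1 / 2) ^ j)
      (1 - (1 / 2) ^ (j + 1)) u) ∪ At D (1 - (1 / 2) ^ j1) 1 u := by
  induction j1, h using Nat.le_induction with
  | base => exact Set.subset_union_right
  | succ j1 h ih =>
    intro a ha
    rcases ih ha with h1 | h1
    · left
      rw [Set.mem_iUnion₂] at h1 ⊢
      obtain ⟨j, hj, h2⟩ := h1
      rw [Finset.mem_Ico] at hj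
      exact ⟨j, Finset.mem_Ico.2 ⟨hj.1, by omega⟩, h2⟩
    · obtain ⟨x, ⟨hx1, hx2⟩, h2⟩ := h1
      rcases le_or_gt (1 - (1 / 2 : ℝ) ^ (j1 + 1)) x with h3 | h3
      · right
        exact ⟨x, ⟨h3, hx2⟩, h2⟩
      · left
        rw [Set.mem_iUnion₂]
        exact ⟨j1, Finset.mem_Ico.2 ⟨h, by omega⟩, x, ⟨hx1, h3.le⟩, h2⟩

theorem geom (θ : ℝ) (h0 : 0 < θ) (h1 : θ < 1) (j0 j1 : ℕ) (h : j0 ≤ j1) :
    ∑ j ∈ Ico j0 (j1 + 1), θ ^ j ≤ θ ^ j0 / (1 - θ) := by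
  have h2 : ∑ j ∈ Ico j0 (j1 + 1), θ ^ j = (θ ^ j0 - θ ^ (j1 + 1)) / (1 - θ) := by
    rw [geom_sum_Ico h1.ne (by omega)]
    rw [div_eq_div_iff (by linarith) (by linarith)]
    ring
  rw [h2]
  apply div_le_div_of_nonneg_right _ (by linarith)
  have : 0 < θ ^ (j1 + 1) := by positivity
  linarith

theorem cv (hZ : S_ZONE) (hG : S_SIGN) : S_CV := by
  obtain ⟨C, hC, hZ⟩ := hZ
  -- `θ ^ 4 = 1/2`
  set θ : ℝ := Real.sqrt (Real.sqrt (1 / 2)) with hθ
  have hθ2 : θ ^ 2 = Real.sqrt (1 / 2) := Real.sq_sqrt (Real.sqrt_nonneg _)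
  have hθ4 : θ ^ 4 = 1 / 2 := by
    have : θ ^ 4 = (θ ^ 2) ^ 2 := by ring
    rw [this, hθ2, Real.sq_sqrt (by norm_num)]
  have hθ0 : 0 < θ := Real.sqrt_pos.2 (Real.sqrt_pos.2 (by norm_num))
  have hθ1 : θ < 1 := by
    by_contra hcon
    push Not at hcon
    have := one_le_pow₀ hcon (n := 4)
    rw [hθ4] at this
    norm_num at this
  refine ⟨2 * C / (θ * (1 - θ)), by
    have : 0 < 1 - θ := by linarith
    positivity, ?_⟩
  intro D s u hD hs1 hs2 hu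
  have h1θ : 0 < 1 - θ := by linarith
  have hDr : (2 : ℝ) ≤ D := by exact_mod_cast hD
  have hs0 : 0 < s := lt_of_lt_of_le (by positivity) hs1
  -- `j1`
  set j1 := Nat.log 2 D with hj1
  have hj1a : 2 ^ j1 ≤ D := Nat.pow_log_le_self 2 (by omega)
  have hj1b : D < 2 ^ (j1 + 1) := Nat.lt_pow_succ_log_self (by norm_num) D
  have hj1a' : (2 : ℝ) ^ j1 ≤ D := by exact_mod_cast hj1a
  have hj1b' : (D : ℝ) < 2 ^ (j1 + 1) := by exact_mod_cast hj1b
  -- `j0`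
  have hex1 : (1 / 2 : ℝ) ^ (j1 + 1) < s := by
    refine lt_of_lt_of_le ?_ hs1
    rw [div_pow, one_pow]
    exact one_div_lt_one_div_of_lt (by linarith) hj1b'
  have hex : ∃ j : ℕ, (1 / 2 : ℝ) ^ (j + 1) < s := ⟨j1, hex1⟩
  classical
  obtain ⟨j0, hj0a, hj0b, hj01⟩ : ∃ j0 : ℕ, (1 / 2 : ℝ) ^ (j0 + 1) < s ∧ s ≤ (1 / 2 : ℝ) ^ j0 ∧
      j0 ≤ j1 := by
    refine ⟨Nat.find hex, Nat.find_spec hex, ?_, Nat.find_min' hex hex1⟩
    rcases Nat.eq_zero_or_pos (Nat.find hex) with h | h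
    · rw [h, pow_zero]; exact hs2
    · have h2 := Nat.find_min hex (m := Nat.find hex - 1) (by omega)
      rw [not_lt, Nat.sub_add_cancel h] at h2
      exact h2
  -- square roots
  have hsq : ∀ j : ℕ, Real.sqrt (u / Real.sqrt (2 ^ j)) = Real.sqrt u * θ ^ j := by
    intro j
    have h1 : Real.sqrt ((2 : ℝ) ^ j) = 1 / (θ ^ j) ^ 2 := by
      rw [Real.sqrt_eq_iff_mul_self_eq (by positivity) (by positivity)]
      have h2 : (2 : ℝ) ^ j = 1 / (θ ^ 4) ^ j := by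
        rw [hθ4, div_pow, one_pow, one_div_one_div]
      rw [h2]
      field_simp
      ring
    rw [h1, div_div_eq_mul_div, div_one, Real.sqrt_mul hu, Real.sqrt_sq (by positivity)]
  have hsq2 : Real.sqrt (u * Real.sqrt s) = Real.sqrt u * Real.sqrt (Real.sqrt s) :=
    Real.sqrt_mul hu _
  have hss : θ ^ (j0 + 1) ≤ Real.sqrt (Real.sqrt s) := by
    apply Real.le_sqrt_of_sq_le
    apply Real.le_sqrt_of_sq_le
    have : ((θ ^ (j0 + 1)) ^ 2) ^ 2 = (θ ^ 4) ^ (j0 + 1) := by ring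
    rw [this, hθ4]
    exact hj0a.le
  -- the zones
  have hzone : ∀ j ∈ Ico j0 j1, ga (At D (1 - (1 / 2) ^ j) (1 - (1 / 2) ^ (j + 1)) u) ≤
      ENNReal.ofReal (C * (Real.sqrt u * θ ^ j)) := by
    intro j hj
    obtain ⟨hj2, hj3⟩ := Finset.mem_Ico.1 hj
    rw [← hsq]
    have hp : (0 : ℝ) < (1 / 2) ^ j := by positivity
    have hp1 : ((1 : ℝ) / 2) ^ j ≤ 1 := pow_le_one₀ (by norm_num) (by norm_num)
    have hps : ((1 : ℝ) / 2) ^ (j + 1) = (1 / 2) ^ j / 2 := by rw [pow_succ]; ring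
    have hpi : (1 : ℝ) / 2 ^ j = (1 / 2) ^ j := by rw [div_pow, one_pow]
    refine hZ D (1 - (1 / 2) ^ j) (1 - (1 / 2) ^ (j + 1)) (2 ^ j) u hD (by linarith)
      (by rw [hps]; linarith) (by rw [hps]; linarith) (one_le_pow₀ (by norm_num)) ?_ ?_ ?_ ?_ hu
    · refine le_trans ?_ hj1a'
      exact pow_le_pow_right₀ (by norm_num) hj3.le
    · rw [hps, hpi]; linarith
    · rw [hpi]
    · right
      have : (1 : ℝ) / (2 * 2 ^ j) = (1 / 2) ^ (j + 1) := by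
        rw [div_pow, one_pow, pow_succ, mul_comm]
      rw [this]
  have hlast : ga (At D (1 - (1 / 2) ^ j1) 1 u) ≤
      ENNReal.ofReal (C * (Real.sqrt u * θ ^ j1)) := by
    rw [← hsq]
    have hp : (0 : ℝ) < (1 / 2) ^ j1 := by positivity
    have hp1 : ((1 : ℝ) / 2) ^ j1 ≤ 1 := pow_le_one₀ (by norm_num) (by norm_num)
    have hpi : (1 : ℝ) / 2 ^ j1 = (1 / 2) ^ j1 := by rw [div_pow, one_pow]
    refine hZ D (1 - (1 / 2) ^ j1) 1 (2 ^ j1) u hD (by linarith) (by linarith) le_rfl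
      (one_le_pow₀ (by norm_num)) hj1a' ?_ ?_ ?_ hu
    · rw [hpi]; linarith
    · rw [hpi]
    · left
      have : (2 : ℝ) * 2 ^ j1 = 2 ^ (j1 + 1) := by rw [pow_succ, mul_comm]
      rw [this]
      exact hj1b'.le
  have hA : ga (At D (1 - s) 1 u) ≤ ENNReal.ofReal (C * Real.sqrt u * (θ ^ j0 / (1 - θ))) := by
    have h0 : At D (1 - s) 1 u ⊆ At D (1 - (1 / 2) ^ j0) 1 u := by
      rintro a ⟨x, ⟨hx1, hx2⟩, h2⟩
      exact ⟨x, ⟨by linarith, hx2⟩, h2⟩
    calc ga (At D (1 - s) 1 u)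
        ≤ ga ((⋃ j ∈ Ico j0 j1, At D (1 - (1 / 2) ^ j) (1 - (1 / 2) ^ (j + 1)) u) ∪
          At D (1 - (1 / 2) ^ j1) 1 u) := measure_mono (h0.trans (cover D u j0 j1 hj01))
      _ ≤ ga (⋃ j ∈ Ico j0 j1, At D (1 - (1 / 2) ^ j) (1 - (1 / 2) ^ (j + 1)) u) +
          ga (At D (1 - (1 / 2) ^ j1) 1 u) := measure_union_le _ _
      _ ≤ ∑ j ∈ Ico j0 j1, ga (At D (1 - (1 / 2) ^ j) (1 - (1 / 2) ^ (j + 1)) u) +
          ga (At D (1 - (1 / 2) ^ j1) 1 u) := by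
            gcongr
            exact measure_biUnion_finset_le _ _
      _ ≤ ∑ j ∈ Ico j0 j1, ENNReal.ofReal (C * (Real.sqrt u * θ ^ j)) +
          ENNReal.ofReal (C * (Real.sqrt u * θ ^ j1)) :=
            add_le_add (sum_le_sum hzone) hlast
      _ = ∑ j ∈ Ico j0 (j1 + 1), ENNReal.ofReal (C * (Real.sqrt u * θ ^ j)) := by
            rw [Finset.sum_Ico_succ_top hj01]
      _ = ENNReal.ofReal (∑ j ∈ Ico j0 (j1 + 1), C * (Real.sqrt u * θ ^ j)) := by
            rw [ENNReal.ofReal_sum_of_nonneg]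
            intro j _
            positivity
      _ ≤ ENNReal.ofReal (C * Real.sqrt u * (θ ^ j0 / (1 - θ))) := by
            apply ENNReal.ofReal_le_ofReal
            have h3 : ∑ j ∈ Ico j0 (j1 + 1), C * (Real.sqrt u * θ ^ j) =
                C * Real.sqrt u * ∑ j ∈ Ico j0 (j1 + 1), θ ^ j := by
              rw [mul_sum]
              refine sum_congr rfl fun j _ => ?_
              ring
            rw [h3]
            exact mul_le_mul_of_nonneg_left (geom θ hθ0 hθ1 j0 j1 hj01) (by positivity)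
  refine (both hG D s u).trans ?_
  calc 2 * ga (At D (1 - s) 1 u)
      ≤ 2 * ENNReal.ofReal (C * Real.sqrt u * (θ ^ j0 / (1 - θ))) := by gcongr
    _ = ENNReal.ofReal (2 * (C * Real.sqrt u * (θ ^ j0 / (1 - θ)))) := by
        generalize C * Real.sqrt u * (θ ^ j0 / (1 - θ)) = X
        rw [ENNReal.ofReal_mul (by norm_num), ENNReal.ofReal_ofNat]
    _ ≤ ENNReal.ofReal (2 * C / (θ * (1 - θ)) * Real.sqrt (u * Real.sqrt s)) := by
        apply ENNReal.ofReal_le_ofReal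
        rw [hsq2]
        have h5 : 2 * (C * Real.sqrt u * (θ ^ j0 / (1 - θ))) =
            2 * C / (θ * (1 - θ)) * (Real.sqrt u * θ ^ (j0 + 1)) := by
          rw [pow_succ]
          field_simp
        rw [h5]
        gcongr

end Pool.Agent.W672.KZ
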